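import Pool.Agent.N496.LT.Stm2

/-!
# Project LT (helper636): doubled cycles with shared lifts
-/

set_option autoImplicit false

noncomputable section

namespace Run7.h636.LT.S

open Module Pool.Agent.N496.LT Pool.Agent.W907.SG Pool.Agent.W397.SG

/-- A doubled `d`-cycle with coefficients in `F` in the flag complex of the graph `G`, in which the lifts `j v false`
may be shared by several vertices: `z` is a nonzero simplicial `d`-cycle on the vertex set `Fin n`; every vertex `v`
has two lifts `j v true`, `j v false` in `G`, which are not adjacent; `j v true` is different from all the other lifts;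
all the lifts of the simplices with nonzero coefficient are simplices (cliques) of `G`. -/
structure Shd (F : Type) [Field F] {V : Type} (G : SimpleGraph V) (d : ℕ) where
  n : ℕ
  z : Finset (Fin n) → F
  j : Fin n → Bool → V
  z_ne : z ≠ 0
  z_card : ∀ σ, z σ ≠ 0 → σ.card = d + 1
  z_cyc : ∀ τ : Finset (Fin n), ∑ v ∈ τᶜ, (sg v τ) • z (insert v τ) = 0
  j_true : ∀ v w b, j v true = j w b → v = w ∧ b = true
  j_adj : ∀ v, ¬ G.Adj (j v true) (j v false)
  clique : ∀ σ, z σ ≠ 0 → ∀ v ∈ σ, ∀ w ∈ σ, v ≠ w → ∀ a b, G.Adj (j v a) (j w b)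

/-- P1 for shared lifts -/
def P1S : Prop := ∀ (V F : Type) [Fintype V] [LinearOrder V] [Field F] (G : SimpleGraph V) (d : ℕ) (X : Shd F G d)
    (ε : ℝ), (2 : F) ≠ 0 → 0 < ε → ∃ E : Finset (W G), (1 : W G) ∉ E ∧ ∀ (Y : Type) [Fintype Y] (P : FSet G E Y)
    (A : Set V), (∀ v b, X.j v b ∈ A) →
      ((1 / 2) ^ (d + 1) - ε) * Fintype.card Y ≤ finrank F (ZZ G (pull F P.a) A ∅ (d + 1))

end Run7.h636.LT.S
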