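import Pool.Agent.N496.LT.MainG
import Pool.Agent.Run7.h636.LT.S.Shd

/-!
# Project LT (helper636): growth of the torsion for graphs with midpoints, shared lifts

After `Pool/Agent/N496/LT/MainG.lean`.
-/

set_option autoImplicit false

open scoped Matrix

noncomputable section

namespace Run7.h636.LT.S

open Module Filter Topology Pool.Agent.N496.LT Pool.Agent.W907.SG Pool.Agent.TH630.Tor Pool.Agent.W461.SGN Pool.Agent.R782.Bal
open Pool.Agent.TH652.Above (HSph)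
open Pool.Agent.Y132.SI (aa ev ev_one ev_mul ev_free aa_inv aa_comm)

section growth

variable {d : ℕ} {V : Type} [Fintype V] [LinearOrder V] {G : SimpleGraph V} {A : Set V}

theorem growthS (hP1 : P1S) (hP2 : P2G) (hP3 : P3A) (hP4 : P4B)
    (hM : MidP G A) (κ : V → Fin (d + 1)) (hκ : ∀ u ∈ A, ∀ v ∈ A, G.Adj u v → κ u ≠ κ v)
    (hL : ∀ i, L2Van G i)
    (p : ℕ) [Fact p.Prime] (hp : p ≠ 2) (Z : Shd (ZMod p) G d) (hZ : ∀ v b, Z.j v b ∈ A)
    (K : ℕ → Subgroup (th G).ker) [∀ i, (K i).Normal] (hf : ∀ i, (K i).FiniteIndex) (ha : Antitone K)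
    (hi : ⨅ i, K i = ⊥) (c : ℝ) (hc : c < 2 ^ Fintype.card V / 2 ^ (d + 1)) :
    ∀ᶠ i in atTop, ∀ [Fintype ((th G).ker ⧸ K i)],
      c * (K i).index ≤ ((davis G).quot (K i)).tp p d := by
  classical
  have h2 : (2 : ZMod p) ≠ 0 := by
    intro h
    have h3 : ((2 : ℕ) : ZMod p) = 0 := by exact_mod_cast h
    rw [ZMod.natCast_eq_zero_iff] at h3
    exact hp ((Nat.prime_dvd_prime_iff_eq (Fact.out) Nat.prime_two).1 h3)
  obtain ⟨δ, hδ⟩ : ∃ δ : ℝ, δ = (1 / 2) ^ (d + 1) - c / 2 ^ Fintype.card V := ⟨_, rfl⟩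
  have h2V : (0 : ℝ) < 2 ^ Fintype.card V := by positivity
  have hδ0 : 0 < δ := by
    rw [hδ, sub_pos, div_lt_iff₀ h2V]
    calc c < 2 ^ Fintype.card V / 2 ^ (d + 1) := hc
      _ = (1 / 2) ^ (d + 1) * 2 ^ Fintype.card V := by
          rw [one_div, inv_pow]; ring
  obtain ⟨m, hmm⟩ := exists_nat_gt (4 / δ)
  have hm0 : (0 : ℝ) < m := lt_trans (by positivity) hmm
  obtain ⟨E1, hE1, g1⟩ := hP1 V (ZMod p) G d Z (δ / 4) h2 (by positivity)
  obtain ⟨E2, hE2, g2⟩ := hP2 V (ZMod p) G A hM (δ / 4) h2 (by positivity)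
  obtain ⟨E3, hE3, g3⟩ := small V G (d + 1) (hL _) m
  have hev : ∀ᶠ i in atTop, ∀ g ∈ E1 ∪ E2 ∪ E3, ∀ x : W G,
      x * g * x⁻¹ ∉ (K i).map (th G).ker.subtype := by
    rw [Filter.eventually_all_finset]
    intro g hg
    refine ev_avoid G K ha hi g ?_
    rintro rfl
    simp only [Finset.mem_union] at hg
    tauto
  filter_upwards [hev] with i hav
  intro inst
  obtain ⟨H, hH⟩ : ∃ H, H = (K i).map (th G).ker.subtype := ⟨_, rfl⟩
  rw [← hH] at hav
  have hidx : H.index = (K i).index * 2 ^ Fintype.card V := by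
    rw [hH, Subgroup.index_map_subtype, index_th]
  have : H.FiniteIndex := ⟨by rw [hidx]; exact mul_ne_zero (hf i).index_ne_zero (by positivity)⟩
  have : Finite (Quotient (QuotientGroup.rightRel H)) :=
    Finite.of_equiv _ (QuotientGroup.quotientRightRelEquivQuotientLeftRel H).symm
  letI : Fintype (Quotient (QuotientGroup.rightRel H)) := Fintype.ofFinite _
  have hcard : (Fintype.card (Quotient (QuotientGroup.rightRel H)) : ℝ) =
      (K i).index * 2 ^ Fintype.card V := by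
    rw [← Nat.card_eq_fintype_card, Nat.card_congr (QuotientGroup.quotientRightRelEquivQuotientLeftRel H)]
    show ((H.index : ℕ) : ℝ) = _
    rw [hidx]
    push_cast
    rfl
  obtain ⟨Yc, hYc⟩ : ∃ y : ℝ, y = (Fintype.card (Quotient (QuotientGroup.rightRel H)) : ℝ) := ⟨_, rfl⟩
  have hYc0 : 0 ≤ Yc := by rw [hYc]; positivity
  -- the three estimates
  have e1 := g1 _ (fset G H E1 fun g hg => hav g (by simp [hg])) A hZ
  have e2 := g2 _ (fset G H E2 fun g hg => hav g (by simp [hg]))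
  have e3 := g3 _ (aa G H) (ev G H) (aa_inv G H) (fun u v h x => aa_comm G H u v h x)
    (ev_one G H) (ev_mul G H) (fun _ _ => rfl)
    (fun g hg x => ev_free G H (hav g (by simp [hg])) x)
  have e1' : beta G (pull (ZMod p) (aa G H)) A ∅ (d + 1) =
      finrank (ZMod p) (Pool.Agent.W907.SG.ZZ G (pull (ZMod p) (aa G H)) A ∅ (d + 1)) := by
    unfold beta BB
    rw [KK_eq_botG hκ _ (d + 1 + 1) (by omega), Submodule.map_bot, finrank_bot, Nat.sub_zero]
  have e1'' : beta G (pull (ZMod p) (aa G H)) A ∅ (d + 2) = 0 := by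
    unfold beta Pool.Agent.W907.SG.ZZ
    rw [KK_eq_botG hκ _ (d + 2) (by omega), bot_inf_eq, finrank_bot, Nat.zero_sub]
  have f1 := (abs_le.1 (e2 (d + 1))).1
  have f2 := (abs_le.1 (e2 (d + 2))).2
  change -(δ / 4 * _) ≤ (beta G (pull (ZMod p) (aa G H)) Set.univ ∅ (d + 1) : ℝ) -
    (beta G (pull (ZMod p) (aa G H)) A ∅ (d + 1) : ℝ) at f1
  change (beta G (pull (ZMod p) (aa G H)) Set.univ ∅ (d + 2) : ℝ) -
    (beta G (pull (ZMod p) (aa G H)) A ∅ (d + 2) : ℝ) ≤ δ / 4 * _ at f2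
  change _ ≤ (finrank (ZMod p) (Pool.Agent.W907.SG.ZZ G (pull (ZMod p) (aa G H)) A ∅ (d + 1)) : ℝ)
    at e1
  rw [← e1', ← hYc] at e1
  rw [e1'', Nat.cast_zero, sub_zero, ← hYc] at f2
  rw [← hYc] at f1
  have f3 : (beta G (pull ℝ (aa G H)) Set.univ ∅ (d + 1) : ℝ) ≤ δ / 4 * Yc := by
    have h5 : (m : ℝ) * beta G (pull ℝ (aa G H)) Set.univ ∅ (d + 1) ≤ Yc := by
      rw [hYc]; exact_mod_cast e3
    have h6 : 1 ≤ m * (δ / 4) := by
      rw [div_lt_iff₀ hδ0] at hmm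
      linarith
    have h7 : (beta G (pull ℝ (aa G H)) Set.univ ∅ (d + 1) : ℝ) ≤ Yc / m := by
      rw [le_div_iff₀ hm0]; linarith
    refine h7.trans ?_
    rw [div_le_iff₀ hm0]
    nlinarith
  -- ranks
  subst hH
  obtain ⟨-, -, h8⟩ := hP3 _ ((davis G).quot (K i)) p d
  rw [hP4 V (ZMod p) G (K i) (d + 1) h2, hP4 V (ZMod p) G (K i) (d + 2) h2,
    hP4 V ℝ G (K i) (d + 1) two_ne_zero] at h8
  have h9 := (Int.cast_le (R := ℝ)).2 h8
  push_cast at h9
  rw [hcard] at hYc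
  have h10 : c * (K i).index = ((1 / 2) ^ (d + 1) - δ) * Yc := by
    rw [hδ, hYc]
    field_simp
    ring
  rw [h10]
  linarith

end growth

theorem mainS3 (hP1 : P1S) (hP2 : P2G) (hP3 : P3A) (hP3T : P3T) (hP4 : P4B) (hR : P4R) (hA : P4A) (hP5A : P5A)
    (hP5B : P5B) {d : ℕ} {V : Type} [Fintype V] [LinearOrder V] {G : SimpleGraph V} {A : Set V}
    (hM : MidP G A) (κ : V → Fin (d + 1)) (hκ : ∀ u ∈ A, ∀ v ∈ A, G.Adj u v → κ u ≠ κ v)
    (hL : ∀ i, L2Van G i)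
    (p : ℕ) [Fact p.Prime] (hp : p ≠ 2) (Z : Shd (ZMod p) G d) (hZ : ∀ v b, Z.j v b ∈ A) :
    ResFin (th G).ker ∧
    (davis G).toFree.DetL2Acyclic ∧
    ((davis G).prod ((davis G).prod (davis G))).toFree.DetL2Acyclic ∧
    ((davis G).prod ((davis G).prod (davis G))).toFree.l2torsion = 0 ∧
    ∀ (K : ℕ → Subgroup (th G).ker) [∀ i, (K i).Normal], (∀ i, (K i).FiniteIndex) → Antitone K →
      ⨅ i, K i = ⊥ → ∀ c : ℝ, 0 < c → c < 2 ^ Fintype.card V / 2 ^ (d + 1) → ∀ᶠ i in atTop, c ^ 3 * Real.log p ≤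
        Real.log ((((davis G).prod ((davis G).prod (davis G))).quot
          ((K i).prod ((K i).prod (K i)))).torsOrder (3 * d + 1)) / ((K i).prod ((K i).prod (K i))).index := by
  have hres : ResFin (th G).ker := hR V G
  have hac : (davis G).toFree.DetL2Acyclic :=
    hA V G fun i => hL i
  have hac2 := hP5A _ _ (davis G) (davis G) hres hres hac
  have hac3 := hP5A _ _ (davis G) ((davis G).prod (davis G)) hres (resFin_prod hres hres) hac
  refine ⟨hres, hac, hac3, hP5B _ _ _ _ hac hac2 hac3, ?_⟩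
  intro K _ hf ha hi c hc0 hc
  filter_upwards [growthS hP1 hP2 hP3 hP4 hM κ hκ hL p hp Z hZ K hf ha hi c hc] with i h1
  have : Finite ((th G).ker ⧸ K i) := @Subgroup.finite_quotient_of_finiteIndex _ _ _ (hf i)
  let _ : Fintype ((th G).ker ⧸ K i) := Fintype.ofFinite _
  have h2 := h1
  have h3 := hP3T _ (davis G) (K i) p d
  obtain ⟨t, ht⟩ : ∃ t, t = ((davis G).quot (K i)).tp p d := ⟨_, rfl⟩
  obtain ⟨T, hT⟩ : ∃ T, T = (((davis G).prod ((davis G).prod (davis G))).quot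
          ((K i).prod ((K i).prod (K i)))).torsOrder (3 * d + 1) := ⟨_, rfl⟩
  rw [← ht] at h2 h3
  rw [← hT] at h3 ⊢
  have hp1 : (1 : ℝ) < p := by exact_mod_cast (Fact.out : p.Prime).one_lt
  have hlog : 0 ≤ Real.log p := Real.log_nonneg hp1.le
  have hidx : (0 : ℝ) < (K i).index := by
    exact_mod_cast Nat.pos_of_ne_zero (hf i).index_ne_zero
  rw [index3, Nat.cast_pow, le_div_iff₀ (by positivity)]
  calc c ^ 3 * Real.log p * ((K i).index : ℝ) ^ 3 = (c * (K i).index) ^ 3 * Real.log p := by ring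
    _ ≤ (t : ℝ) ^ 3 * Real.log p := by
        refine mul_le_mul_of_nonneg_right (pow_le_pow_left₀ (by positivity) h2 3) hlog
    _ = Real.log ((p : ℝ) ^ (t ^ 3)) := by rw [Real.log_pow]; push_cast; ring
    _ ≤ Real.log T := by
        refine Real.log_le_log (by positivity) ?_
        exact_mod_cast h3

theorem mainS2 (hP1 : P1S) (hP2 : P2G) (hP3 : P3A) (hP3S : P3S) (hP4 : P4B) (hR : P4R) {d : ℕ} {V : Type}
    [Fintype V] [LinearOrder V] {G : SimpleGraph V} {A : Set V}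
    (hM : MidP G A) (κ : V → Fin (d + 1)) (hκ : ∀ u ∈ A, ∀ v ∈ A, G.Adj u v → κ u ≠ κ v)
    (hL : ∀ i, L2Van G i)
    (p : ℕ) [Fact p.Prime] (hp : p ≠ 2) (Z : Shd (ZMod p) G d) (hZ : ∀ v b, Z.j v b ∈ A) :
    ResFin (th G).ker ∧
    ∀ (K : ℕ → Subgroup (th G).ker) [∀ i, (K i).Normal], (∀ i, (K i).FiniteIndex) → Antitone K →
      ⨅ i, K i = ⊥ → ∀ c : ℝ, 0 < c → c < 2 ^ Fintype.card V / 2 ^ (d + 1) → ∀ᶠ i in atTop, ∀ n, n = 2 * d ∨ n = 2 * d + 1 →
        c ^ 2 * Real.log p ≤ Real.log ((((davis G).prod (davis G)).quot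
          ((K i).prod (K i))).torsOrder n) / ((K i).prod (K i)).index := by
  have hres : ResFin (th G).ker := hR V G
  refine ⟨hres, ?_⟩
  intro K _ hf ha hi c hc0 hc
  filter_upwards [growthS hP1 hP2 hP3 hP4 hM κ hκ hL p hp Z hZ K hf ha hi c hc] with i h1
  intro n hn
  have : Finite ((th G).ker ⧸ K i) := @Subgroup.finite_quotient_of_finiteIndex _ _ _ (hf i)
  let _ : Fintype ((th G).ker ⧸ K i) := Fintype.ofFinite _
  have h2 := h1
  have h3 : p ^ ((davis G).quot (K i)).tp p d ^ 2 ≤ (((davis G).prod (davis G)).quot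
      ((K i).prod (K i))).torsOrder n := by
    rcases hn with rfl | rfl
    · exact (hP3S _ (davis G) (K i) p d).1
    · exact (hP3S _ (davis G) (K i) p d).2
  obtain ⟨t, ht⟩ : ∃ t, t = ((davis G).quot (K i)).tp p d := ⟨_, rfl⟩
  obtain ⟨T, hT⟩ : ∃ T, T = (((davis G).prod (davis G)).quot
      ((K i).prod (K i))).torsOrder n := ⟨_, rfl⟩
  rw [← ht] at h2 h3
  rw [← hT] at h3 ⊢
  have hp1 : (1 : ℝ) < p := by exact_mod_cast (Fact.out : p.Prime).one_lt
  have hlog : 0 ≤ Real.log p := Real.log_nonneg hp1.le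
  have hidx : (0 : ℝ) < (K i).index := by
    exact_mod_cast Nat.pos_of_ne_zero (hf i).index_ne_zero
  rw [Subgroup.index_prod, Nat.cast_mul, le_div_iff₀ (by positivity)]
  calc c ^ 2 * Real.log p * ((K i).index * (K i).index : ℝ) = (c * (K i).index) ^ 2 * Real.log p := by ring
    _ ≤ (t : ℝ) ^ 2 * Real.log p := by
        refine mul_le_mul_of_nonneg_right (pow_le_pow_left₀ (by positivity) h2 2) hlog
    _ = Real.log ((p : ℝ) ^ (t ^ 2)) := by rw [Real.log_pow]; push_cast; ring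
    _ ≤ Real.log T := by
        refine Real.log_le_log (by positivity) ?_
        exact_mod_cast h3

end Run7.h636.LT.S
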