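import Pool.Agent.N496.LT.FinS
import Pool.Agent.Run7.h636.LT.S.MainS

/-!
# Project LT (helper636): the coloured edge subdivision of a flag sphere, shared lifts

After `Pool/Agent/N496/LT/FinS.lean`.
-/

set_option autoImplicit false

open scoped Matrix

noncomputable section

namespace Run7.h636.LT.S

open Module Filter Topology Pool.Agent.N496.LT Pool.Agent.W907.SG Pool.Agent.TH630.Tor Pool.Agent.W461.SGN Pool.Agent.R782.Bal
open Pool.Agent.TH652.Above (HSph)

/-- the graphs mapped injectively to an edge subdivision of `H` are embedded -/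
def EmbAll {N : ℕ} (d : ℕ) (H : SimpleGraph (Fin N)) : Prop := ∀ (n : ℕ) (G : SimpleGraph (Fin n)), Sub H G →
  ∀ (V : Type) [Finite V] (K : SimpleGraph V) (φ : V → Fin n), Function.Injective φ →
    (∀ x y, K.Adj x y → G.Adj (φ x) (φ y)) → Emb d K

/-- the case of an embedding in the unit sphere -/
theorem embAll_unit (hE2 : E2) {N d : ℕ} (H : SimpleGraph (Fin N))
    (f : (Fin N → ℝ) → EuclideanSpace ℝ (Fin (2 * d + 1)))
    (hf : ContinuousOn f (Rea H)) (hf1 : ∀ x ∈ Rea H, ‖f x‖ = 1) (hfi : Set.InjOn f (Rea H)) : EmbAll d H := by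
  classical
  intro n G hG V _ K φ hφ hK
  obtain ⟨g, hg1, hg2, hg3⟩ := hG.real hE2 f hf hfi
  obtain ⟨e, he⟩ : ∃ e : (V → ℝ) → (Fin n → ℝ), ∀ x i, e x i = if h : ∃ v, φ v = i then x h.choose else 0 :=
    ⟨_, fun _ _ => rfl⟩
  have hev : ∀ x v, e x (φ v) = x v := by
    intro x v
    have h1 : ∃ w, φ w = φ v := ⟨v, rfl⟩
    rw [he, dif_pos h1, hφ h1.choose_spec]
  have hen : ∀ x i, (¬ ∃ v, φ v = i) → e x i = 0 := fun x i h => by rw [he, dif_neg h]
  have hec : Continuous e := by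
    refine continuous_pi fun i => ?_
    by_cases h : ∃ v, φ v = i
    · obtain ⟨v, rfl⟩ := h
      have : (fun x : V → ℝ => e x (φ v)) = fun x => x v := funext fun x => hev x v
      rw [this]
      exact continuous_apply v
    · have : (fun x : V → ℝ => e x i) = fun _ => 0 := funext fun x => hen x i h
      rw [this]
      exact continuous_const
  have hmem : ∀ x ∈ Rea K, e x ∈ Rea G := by
    rintro x ⟨h1, h2, h3⟩
    refine ⟨fun i => ?_, ?_, ?_⟩
    · by_cases h : ∃ v, φ v = i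
      · obtain ⟨v, rfl⟩ := h
        rw [hev]
        exact h1 v
      · rw [hen x i h]
    · rw [← h2]
      cases nonempty_fintype V
      rw [finsum_eq_sum_of_fintype, finsum_eq_sum_of_fintype]
      rw [← Finset.sum_subset (Finset.subset_univ (Finset.univ.map ⟨φ, hφ⟩)) (f := fun i => e x i)]
      · rw [Finset.sum_map]
        exact Finset.sum_congr rfl fun v _ => hev x v
      · intro i _ hi
        refine hen x i ?_
        rintro ⟨v, rfl⟩
        exact hi (Finset.mem_map.2 ⟨v, Finset.mem_univ _, rfl⟩)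
    · intro i hi j hj hij
      by_cases h : ∃ v, φ v = i
      · by_cases h' : ∃ v, φ v = j
        · obtain ⟨v, rfl⟩ := h
          obtain ⟨w, rfl⟩ := h'
          have hi' : x v ≠ 0 := by
            have h5 : e x (φ v) ≠ 0 := hi
            rwa [hev] at h5
          have hj' : x w ≠ 0 := by
            have h5 : e x (φ w) ≠ 0 := hj
            rwa [hev] at h5
          exact hK v w (h3 hi' hj' fun h5 => hij (by rw [h5]))
        · exact absurd (hen x j h') hj
      · exact absurd (hen x i h) hi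
  refine Emb.unit (fun x => g (e x)) inferInstance ?_ ?_ ?_
  · exact hg1.comp (Continuous.continuousOn hec) fun x hx => hmem x hx
  · intro x hx
    obtain ⟨y, hy, e1⟩ := hg3 _ (hmem x hx)
    show ‖g _‖ = 1
    rw [e1]
    exact hf1 y hy
  · intro x hx y hy hxy h
    have h1 := hg2 (hmem x hx) (hmem y hy) h
    have h2 : x = y := by
      funext v
      rw [← hev x v, ← hev y v, h1]
    subst h2
    have h3 : ∀ v, x v = 0 := fun v => by rcases hxy v with h | h <;> exact h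
    have h4 := hx.2.1
    rw [finsum_eq_zero_of_forall_eq_zero h3] at h4
    exact zero_ne_one h4

theorem buildS (hC2 : C2) (hC3 : C3) (hE1 : E1) {F : Type} [Field F] {d N : ℕ} (H : SimpleGraph (Fin N))
    (hd : 1 ≤ d) (hS : HSph (2 * d + 1) H) (hE : EmbAll d H) (Z : Shd F H d)
    (c : Fin N → Fin (d + 1)) (hc : ∀ v w a b, H.Adj (Z.j v a) (Z.j w b) → c (Z.j v a) ≠ c (Z.j w b)) :
    ∃ (n : ℕ) (S : SimpleGraph (Fin n)) (A : Set (Fin n)) (κ : Fin n → Fin (d + 1)) (Z' : Shd F S d),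
      Sub H S ∧ HSph (2 * d + 1) S ∧ MidP S A ∧ (∀ u ∈ A, ∀ v ∈ A, S.Adj u v → κ u ≠ κ v) ∧ (∀ i, L2Van S i) ∧
      (∀ v b, Z'.j v b ∈ A) := by
  classical
  -- the colouring
  obtain ⟨code, hcode⟩ : ∃ code : Fin (d + 1) → ℕ, code = fun i : Fin (d + 1) => if (i : ℕ) < d then 2 * (i : ℕ) + 1 else 2 * d := ⟨_, rfl⟩
  have hcode_inj : Function.Injective code := by
    intro i j hij
    rw [hcode] at hij
    dsimp only at hij
    have := i.2
    have := j.2
    apply Fin.ext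
    split_ifs at hij <;> omega
  have hcode_pos : ∀ i, 0 < code i := by
    intro i
    rw [hcode]
    dsimp only
    split_ifs <;> omega
  have hcode_le : ∀ i, code i ≤ 2 * d := by
    intro i
    rw [hcode]
    dsimp only
    split_ifs <;> omega
  have hcode_div : ∀ i, code i / 2 = i := by
    intro i
    rw [hcode]
    dsimp only
    have := i.2
    split_ifs <;> omega
  obtain ⟨κ, hκ⟩ : ∃ κ : ℕ → ℕ, κ = fun x => if h : ∃ v b, x = (Z.j v b : ℕ) then code (c (Z.j h.choose h.choose_spec.choose)) else 0 := ⟨_, rfl⟩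
  have hκj : ∀ v b, κ (Z.j v b : ℕ) = code (c (Z.j v b)) := by
    intro v b
    have h1 : ∃ v' b', (Z.j v b : ℕ) = (Z.j v' b' : ℕ) := ⟨v, b, rfl⟩
    rw [hκ]
    dsimp only
    rw [dif_pos h1]
    rw [show Z.j h1.choose h1.choose_spec.choose = Z.j v b from Fin.ext h1.choose_spec.choose_spec.symm]
  have hκ0 : ∀ x, κ x ≠ 0 → ∃ v b, x = (Z.j v b : ℕ) := by
    intro x hx
    by_contra h
    apply hx
    rw [hκ]
    dsimp only
    rw [dif_neg h]
  -- the graph on ℕ
  obtain ⟨HN, hHN⟩ : ∃ HN : SimpleGraph ℕ, HN = H.map Fin.valEmbedding := ⟨_, rfl⟩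
  have hadjN : ∀ x y : Fin N, HN.Adj (x : ℕ) (y : ℕ) ↔ H.Adj x y := by
    intro x y
    rw [hHN]
    exact SimpleGraph.map_adj_apply
  have hadjN' : ∀ x y : ℕ, HN.Adj x y → ∃ a b : Fin N, H.Adj a b ∧ (a : ℕ) = x ∧ (b : ℕ) = y := by
    intro x y h
    rw [hHN, SimpleGraph.map_adj] at h
    exact h
  have hBd : Bd N HN := by
    intro x y h
    obtain ⟨a, b, -, rfl, -⟩ := hadjN' x y h
    exact a.2
  have hcomap : HN.comap (Fin.val : Fin N → ℕ) = H := by
    ext x y
    exact hadjN x y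
  have hcl : ∀ Q : Finset ℕ, HN.IsClique (Q : Set ℕ) → Q.card ≤ 2 * d + 1 := by
    intro Q hQ
    rcases Nat.lt_or_ge Q.card 2 with h | h
    · omega
    have h1 : ∀ x ∈ Q, x < N := by
      intro x hx
      obtain ⟨y, hy, hxy⟩ := Finset.exists_mem_ne (by omega : 1 < Q.card) x
      exact hBd x y (hQ hx hy hxy.symm)
    have h2 : (Q.attachFin h1).card = Q.card := Finset.card_attachFin _ _
    rw [← h2]
    refine Pool.Agent.TH652.Dual.no_big hS ?_
    intro x hx y hy hxy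
    rw [Finset.mem_coe, Finset.mem_attachFin] at hx hy
    exact (hadjN x y).1 (hQ hx hy fun h => hxy (Fin.ext h))
  obtain ⟨n1, G1, κ1, hn1, hsub1, hB1, hκ1, hκ1le, hprop1, hadj1⟩ := hC2 d N HN κ hd hBd hcl
    (by
      intro x
      by_cases h : κ x = 0
      · omega
      · obtain ⟨v, b, rfl⟩ := hκ0 x h
        rw [hκj]
        exact hcode_le _)
    (by
      intro x y hxy he
      by_contra h
      obtain ⟨v, b, rfl⟩ := hκ0 x h
      obtain ⟨w, b', rfl⟩ := hκ0 y (by rwa [← he])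
      rw [hκj, hκj] at he
      exact hc v w b b' ((hadjN _ _).1 hxy) (hcode_inj he))
  obtain ⟨n2, G2, hn2, hsub2, hB2, hadj2, hmid⟩ := hC3 n1 G1 (fun x => κ1 x / 2) hB1 (by
    intro x y z hxy hyz hxz e1 e2
    have h1 := hprop1 x y hxy
    have h2 := hprop1 y z hyz
    have h3 := hprop1 x z hxz
    omega)
  have hsub : Sub H (G2.comap (Fin.val : Fin n2 → ℕ)) := by
    have := (hsub1.trans hsub2).sub hBd
    rwa [hcomap] at this
  have hsub1' : Sub H (G1.comap (Fin.val : Fin n1 → ℕ)) := by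
    have := hsub1.sub hBd
    rwa [hcomap] at this
  obtain ⟨S, hSd⟩ : ∃ S : SimpleGraph (Fin n2), S = G2.comap (Fin.val : Fin n2 → ℕ) := ⟨_, rfl⟩
  have hSadj : ∀ x y : Fin n2, S.Adj x y ↔ G2.Adj x y := by
    intro x y
    rw [hSd]
    rfl
  rw [← hSd] at hsub
  obtain ⟨A, hA⟩ : ∃ A : Set (Fin n2), A = {x : Fin n2 | (x : ℕ) < n1} := ⟨_, rfl⟩
  have hmemA : ∀ x : Fin n2, x ∈ A ↔ (x : ℕ) < n1 := by
    intro x
    rw [hA]
    rfl
  have hSS := hsub.hsph hE1 hS
  have hM : MidP S A := by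
    intro m hm
    rw [hmemA, not_lt] at hm
    obtain ⟨s, t, hs, ht, hst, h1, h2, h3, h4⟩ := hmid m hm m.2
    refine ⟨⟨s, by omega⟩, (hmemA _).2 hs, ⟨t, by omega⟩, (hmemA _).2 ht, fun h => hst (congrArg Fin.val h), ?_, ?_, ?_, ?_⟩
    · rw [hSadj]; exact h1
    · rw [hSadj]; exact h2
    · rw [hSadj]; exact h3
    · intro u hu hus hut
      rw [hSadj] at hu
      rw [hSadj, hSadj]
      exact h4 u hu (fun h => hus (Fin.ext h)) fun h => hut (Fin.ext h)
  obtain ⟨κ', hκ'⟩ : ∃ κ' : Fin n2 → Fin (d + 1), ∀ x, (κ' x : ℕ) = κ1 x / 2 :=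
    ⟨fun x => ⟨κ1 x / 2, by have := hκ1le x; omega⟩, fun x => rfl⟩
  have hprop : ∀ u ∈ A, ∀ v ∈ A, S.Adj u v → κ' u ≠ κ' v := by
    intro u hu v hv huv h
    rw [hmemA] at hu hv
    rw [hSadj, hadj2 u v hu hv] at huv
    apply huv.2
    have := congrArg Fin.val h
    rw [hκ', hκ'] at this
    exact this
  have hEmb : Emb d (S.induce A) := by
    refine hE n1 (G1.comap (Fin.val : Fin n1 → ℕ)) hsub1' _ (S.induce A) (fun a => ⟨a.1, (hmemA _).1 a.2⟩) ?_ ?_
    · intro a b hab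
      have h6 : (⟨a.1, (hmemA _).1 a.2⟩ : Fin n1) = ⟨b.1, (hmemA _).1 b.2⟩ := hab
      have h7 : ((a.1 : Fin n2) : ℕ) = (b.1 : ℕ) := Fin.mk.inj h6
      exact Subtype.ext (Fin.ext h7)
    · intro a b hab
      have h5 : S.Adj a.1 b.1 := hab
      rw [hSadj, hadj2 _ _ ((hmemA _).1 a.2) ((hmemA _).1 b.2)] at h5
      exact h5.1
  have hL : ∀ i, L2Van S i := by
    intro i
    refine singer_SQ hSS ?_ i (by omega)
    rw [show (2 * d + 1) / 2 + 1 = d + 1 by omega]
    exact sq_mid S A hM κ' hprop hEmb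
  -- the doubled cycle
  obtain ⟨ι, hι⟩ : ∃ ι : Fin N → Fin n2, ∀ x, (ι x : ℕ) = x := ⟨fun x => ⟨x, by omega⟩, fun x => rfl⟩
  have hιi : ∀ x y, ι x = ι y → x = y := by
    intro x y h
    apply Fin.ext
    rw [← hι x, ← hι y, h]
  have hιadj : ∀ x y, S.Adj (ι x) (ι y) → H.Adj x y := by
    intro x y h
    rw [hSadj, hι, hι, hadj2 x y (by omega) (by omega), hadj1 x y x.2 y.2, hadjN] at h
    exact h.1.1
  have hkey : ∀ v w a b, H.Adj (Z.j v a) (Z.j w b) → S.Adj (ι (Z.j v a)) (ι (Z.j w b)) := by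
    intro v w a b h
    have h1 := hc v w a b h
    have h2 : (Z.j v a : ℕ) < n1 := by omega
    have h3 : (Z.j w b : ℕ) < n1 := by omega
    rw [hSadj, hι, hι, hadj2 _ _ h2 h3, hadj1 _ _ (Z.j v a).2 (Z.j w b).2, hadjN, hκj, hκj,
      hκ1 _ (Z.j v a).2, hκ1 _ (Z.j w b).2, hκj, hκj, hcode_div, hcode_div]
    exact ⟨⟨h, fun h4 => h1 (hcode_inj h4)⟩, fun h4 => h1 (Fin.ext h4)⟩
  refine ⟨n2, S, A, κ', ⟨Z.n, Z.z, fun v b => ι (Z.j v b), Z.z_ne, Z.z_card, Z.z_cyc, ?_, ?_, ?_⟩,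
    hsub, hSS, hM, hprop, hL, ?_⟩
  · intro v w b h
    exact Z.j_true v w b (hιi _ _ h)
  · intro v h
    exact Z.j_adj v (hιadj _ _ h)
  · intro σ hσ v hv w hw hvw a b
    exact hkey v w a b (Z.clique σ hσ v hv w hw hvw a b)
  · intro v b
    rw [hmemA, hι]
    omega

end Run7.h636.LT.S
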