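import Pool.Agent.Run7.h636.LT.P1d

/-!
# Project LT (helper636): the values of the cycles on one simplex
-/

set_option autoImplicit false

noncomputable section

namespace Run7.h636.LT.S

open Module Pool.Agent.N496.LT Pool.Agent.W907.SG Pool.Agent.W397.SG Run7.h636.LT.P1

theorem range_le {F Q R M : Type} [Field F] [AddCommGroup Q] [Module F Q] [FiniteDimensional F Q] [AddCommGroup R]
    [Module F R] [AddCommGroup M] [Module F M] [FiniteDimensional F M] (f : Q →ₗ[F] M) (θ : Q →ₗ[F] R) :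
    finrank F (LinearMap.range f) ≤ finrank F ((LinearMap.ker θ).map f) + finrank F (LinearMap.range θ) := by
  obtain ⟨C, hC⟩ := Submodule.exists_isCompl (LinearMap.ker θ)
  have h1 : LinearMap.range f = (LinearMap.ker θ).map f ⊔ C.map f := by
    rw [← Submodule.map_sup, hC.sup_eq_top, Submodule.map_top]
  have h2 := Submodule.finrank_add_eq_of_isCompl hC
  have h3 := LinearMap.finrank_range_add_finrank_ker θ
  have h4 : finrank F (C.map f) ≤ finrank F C := Submodule.finrank_map_le _ _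
  have h5 := Submodule.finrank_add_le_finrank_add_finrank ((LinearMap.ker θ).map f) (C.map f)
  rw [h1]
  omega

variable {V F : Type} [Fintype V] [LinearOrder V] [Field F] {G : SimpleGraph V} {d : ℕ} (X : Dbl F G d)
  {Y : Type} [Fintype Y] (a : V → Y → Y)

theorem ev_le (hU : X.U = ∅) (σ0 : Finset (Fin X.n)) (hσ0 : X.z σ0 ≠ 0) (A : Set V) (hA : ∀ v b, X.j v b ∈ A)
    (S : Finset (Finset (Fin X.n))) (hS : ∀ σ, X.z σ ≠ 0 → σ ∈ S) (m : Y → F) (hm0 : m ∈ Nn X a σ0 σ0)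
    (hm : m ∈ (⨅ σ ∈ S, Is X a σ : Submodule F (Y → F))) :
    ∃ x ∈ Qw X a A, x.1 (lf X σ0 σ0) = m := by
  classical
  have h1 : ∀ σ, ∃ μ : Finset (Fin X.n) → Y → F, X.z σ ≠ 0 → ((∀ B, μ B ∈ Nn X a σ B) ∧
      ∑ B ∈ (σ \ X.U).powerset, μ B = m) ∧ (σ = σ0 → μ σ0 = m) := by
    intro σ
    by_cases hσ : X.z σ = 0
    · exact ⟨0, fun h => absurd hσ h⟩
    · by_cases hs : σ = σ0
      · refine ⟨fun B => if B = σ0 then m else 0, fun _ => ⟨⟨fun B => ?_, ?_⟩, fun _ => if_pos rfl⟩⟩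
        · beta_reduce
          split_ifs with h
          · rw [h, hs]
            exact hm0
          · exact zero_mem _
        · rw [Finset.sum_ite_eq' (σ \ X.U).powerset σ0 (fun _ => m), if_pos]
          rw [hU, Finset.sdiff_empty, hs]
          exact Finset.mem_powerset_self _
      · have h2 : m ∈ Is X a σ := (Submodule.mem_iInf _).1 ((Submodule.mem_iInf _).1 hm σ) (hS σ hσ)
        obtain ⟨μ, hμ⟩ := (Submodule.mem_iSup_finset_iff_exists_sum _ _).1 h2
        exact ⟨fun B => (μ B : Y → F), fun _ => ⟨⟨fun B => (μ B).2, hμ⟩, fun h => absurd h hs⟩⟩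
  choose μ hμ using h1
  obtain ⟨c, hc⟩ : ∃ c : Finset V → Y → F, ∀ T, c T = ∑ σ ∈ Finset.univ.filter (fun σ => X.z σ ≠ 0),
      ∑ B ∈ (σ \ X.U).powerset, if lf X σ B = T then gg (fB X B) σ • (X.z σ • μ σ B) else 0 := ⟨_, fun _ => rfl⟩
  have hc1 : ∀ σ B, B ⊆ σ \ X.U → c (lf X σ B) = gg (fB X B) σ • (X.z σ • μ σ B) := by
    intro σ B hB
    rw [hc]
    by_cases hσ : X.z σ = 0
    · rw [hσ, zero_smul, smul_zero]
      refine Finset.sum_eq_zero fun σ' hσ' => Finset.sum_eq_zero fun B' hB' => ?_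
      refine if_neg fun h => ?_
      obtain ⟨h3, -⟩ := lf_inj X (Finset.mem_powerset.1 hB') hB h
      exact (Finset.mem_filter.1 hσ').2 (h3 ▸ hσ)
    · rw [Finset.sum_eq_single σ, Finset.sum_eq_single B, if_pos rfl]
      · intro B' hB' hne
        refine if_neg fun h => hne ?_
        exact (lf_inj X (Finset.mem_powerset.1 hB') hB h).2
      · exact fun h => absurd (Finset.mem_powerset.2 hB) h
      · intro σ' _ hne
        refine Finset.sum_eq_zero fun B' hB' => if_neg fun h => hne ?_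
        exact (lf_inj X (Finset.mem_powerset.1 hB') hB h).1
      · exact fun h => absurd (show σ ∈ Finset.univ.filter (fun σ => X.z σ ≠ 0) from
          Finset.mem_filter.2 ⟨Finset.mem_univ _, hσ⟩) h
  have hc2 : ∀ T, c T ≠ 0 → ∃ σ B, X.z σ ≠ 0 ∧ B ⊆ σ \ X.U ∧ T = lf X σ B := by
    intro T hT
    rw [hc] at hT
    obtain ⟨σ, hσ, h3⟩ := Finset.exists_ne_zero_of_sum_ne_zero hT
    obtain ⟨B, hB, h4⟩ := Finset.exists_ne_zero_of_sum_ne_zero h3
    refine ⟨σ, B, (Finset.mem_filter.1 hσ).2, Finset.mem_powerset.1 hB, ?_⟩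
    by_contra h
    exact h4 (if_neg (fun h' => h h'.symm))
  have hQ : (c, m) ∈ Qw X a A := by
    refine ⟨?_, fun T hT => ?_, fun σ => ?_⟩
    · rw [mem_KK]
      refine ⟨fun T hT => ?_, fun T t ht => ?_⟩
      · by_contra h
        obtain ⟨σ, B, h3, h4, h5⟩ := hc2 T h
        apply hT
        rw [h5]
        refine ⟨?_, ?_, ?_⟩
        · intro x hx y hy hxy
          obtain ⟨v, hv, rfl⟩ := (mem_lf X σ B x).1 (Finset.mem_coe.1 hx)
          obtain ⟨w, hw, rfl⟩ := (mem_lf X σ B y).1 (Finset.mem_coe.1 hy)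
          exact X.clique σ h3 v hv w hw (fun h => hxy (by rw [h])) _ _
        · intro x hx
          obtain ⟨v, hv, rfl⟩ := (mem_lf X σ B x).1 (Finset.mem_coe.1 hx)
          exact hA _ _
        · rw [lf_card]
          exact X.z_card σ h3
      · have ht' : t ∈ T := ht.resolve_right (Set.notMem_empty t)
        have h3 : c T ∈ ET F a T := by
          rw [hc]
          refine Submodule.sum_mem _ fun σ hσ => Submodule.sum_mem _ fun B hB => ?_
          split_ifs with h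
          · rw [← h]
            exact zsmul_mem (Submodule.smul_mem _ _ ((hμ σ (Finset.mem_filter.1 hσ).2).1.1 B)) _
          · exact zero_mem _
        funext y
        exact h3 t ht' y
    · obtain ⟨σ, B, _, h4, h5⟩ := hc2 T hT
      exact ⟨σ, B, h4, h5⟩
    · show s X c σ = X.z σ • m
      unfold s
      rw [Finset.sum_congr rfl fun B hB => by rw [hc1 σ B (Finset.mem_powerset.1 hB), smul_smul, gg_sq, one_smul]]
      by_cases hσ : X.z σ = 0
      · rw [hσ, zero_smul]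
        refine Finset.sum_eq_zero fun B _ => zero_smul _ _
      · rw [← Finset.smul_sum, (hμ σ hσ).1.2]
  have hg : gg (fB X σ0) σ0 = 1 ∨ gg (fB X σ0) σ0 = -1 := by
    have h3 := gg_sq (fB X σ0) σ0
    exact mul_self_eq_one_iff.1 h3
  refine ⟨(X.z σ0)⁻¹ • (gg (fB X σ0) σ0 • (c, m)), Submodule.smul_mem _ _ (zsmul_mem hQ _), ?_⟩
  show (X.z σ0)⁻¹ • (gg (fB X σ0) σ0 • c (lf X σ0 σ0)) = m
  rw [hc1 σ0 σ0 (by rw [hU, Finset.sdiff_empty]), (hμ σ0 hσ0).2 rfl, smul_smul (gg _ _) (gg _ _), gg_sq, one_smul,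
    smul_smul, inv_mul_cancel₀ hσ0, one_smul]

theorem ev_dim (hU : X.U = ∅) (σ0 : Finset (Fin X.n)) (hσ0 : X.z σ0 ≠ 0) (δ : ℕ)
    (hδ : ∀ w, w ∉ X.U → finrank F (Pw X a w true ⊓ Pw X a w false : Submodule F (Y → F)) ≤ δ)
    (hdim : ∀ T : Finset V, G.IsClique (T : Set V) → finrank F (ET F a T) * 2 ^ T.card = Fintype.card Y)
    (A : Set V) (hA : ∀ v b, X.j v b ∈ A) :
    finrank F (Nn X a σ0 σ0) ≤ finrank F ((ZZ G (pull F a) A ∅ (d + 1)).map
      (LinearMap.proj (R := F) (φ := fun _ : Finset V => Y → F) (lf X σ0 σ0))) + 2 * (2 ^ X.n * (2 ^ X.n * δ)) := by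
  classical
  obtain ⟨S, hSd⟩ : ∃ S : Finset (Finset (Fin X.n)), S = Finset.univ.filter (fun σ => X.z σ ≠ 0) := ⟨_, rfl⟩
  have h1 := D_dim X a δ hδ hdim S (fun σ hσ => by rw [hSd] at hσ; exact (Finset.mem_filter.1 hσ).2)
  have hS : ∀ σ, X.z σ ≠ 0 → σ ∈ S := fun σ hσ => by
    rw [hSd]
    exact Finset.mem_filter.2 ⟨Finset.mem_univ _, hσ⟩
  have hN0 : Nn X a X.U ∅ = (⊤ : Submodule F (Y → F)) := by
    rw [eq_top_iff]
    intro m _ t ht
    rw [hU] at ht
    obtain ⟨v, hv, -⟩ := (mem_lf X ∅ ∅ t).1 ht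
    exact absurd hv (Finset.notMem_empty v)
  rw [hN0, top_inf_eq, finrank_top] at h1
  obtain ⟨D, hD⟩ : ∃ D : Submodule F (Y → F), D = ⨅ σ ∈ S, Is X a σ := ⟨_, rfl⟩
  rw [← hD] at h1
  have h2 := Submodule.finrank_sup_add_finrank_inf_eq (Nn X a σ0 σ0) D
  have h3 : finrank F (Nn X a σ0 σ0 ⊔ D : Submodule F (Y → F)) ≤ finrank F (Y → F) := Submodule.finrank_le _
  -- the evaluation
  let θ : Qw X a A →ₗ[F] (Finset V → Y → F) := (bd F) ∘ₗ (LinearMap.fst F _ _) ∘ₗ (Qw X a A).subtype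
  let ev : Qw X a A →ₗ[F] (Y → F) := (LinearMap.proj (R := F) (φ := fun _ : Finset V => Y → F) (lf X σ0 σ0)) ∘ₗ
    (LinearMap.fst F _ _) ∘ₗ (Qw X a A).subtype
  have h4 : Nn X a σ0 σ0 ⊓ D ≤ LinearMap.range ev := by
    rintro m ⟨hm0, hm⟩
    rw [hD] at hm
    obtain ⟨x, hx, h5⟩ := ev_le X a hU σ0 hσ0 A hA S hS m hm0 hm
    exact ⟨⟨x, hx⟩, h5⟩
  have h5 := Submodule.finrank_mono h4
  have h6 := range_le ev θ
  have h7 : (LinearMap.ker θ).map ev ≤ (ZZ G (pull F a) A ∅ (d + 1)).map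
      (LinearMap.proj (R := F) (φ := fun _ : Finset V => Y → F) (lf X σ0 σ0)) := by
    rintro _ ⟨x, hx, rfl⟩
    exact ⟨x.1.1, ⟨x.2.1, hx⟩, rfl⟩
  have h8 := Submodule.finrank_mono h7
  have h9 : LinearMap.range θ ≤ Rr X a := by
    rintro _ ⟨x, rfl⟩
    show bd F x.1.1 ∈ Rr X a
    refine ⟨fun T hT => bd_supp X x.1.1 x.2.2.1 T hT, fun τ B hB w hw => ?_, fun τ => ?_⟩
    · have h1 := (mem_KK.1 (bd_mem_KK x.2.1)).2 (lf X τ B) (fB X B w)
        (Or.inl ((mem_lf X τ B _).2 ⟨w, (Finset.mem_sdiff.1 hw).1, rfl⟩))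
      intro t ht y
      rw [Finset.mem_singleton] at ht
      rw [ht]
      exact congrFun h1 y
    · have h1 := s_bd X x.1.1 (fun T hT => by
        obtain ⟨σ, B, _, h⟩ := x.2.2.1 T hT
        exact ⟨σ, B, h⟩) τ
      unfold s at h1
      rw [h1]
      have h2 : ∀ w ∈ τᶜ, sg w τ • (∑ B ∈ ((insert w τ) \ X.U).powerset,
          gg (fB X B) (insert w τ) • x.1.1 (lf X (insert w τ) B)) =
          (sg w τ • X.z (insert w τ)) • x.1.2 := by
        intro w _
        rw [show (∑ B ∈ ((insert w τ) \ X.U).powerset,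
          gg (fB X B) (insert w τ) • x.1.1 (lf X (insert w τ) B)) = X.z (insert w τ) • x.1.2 from
          x.2.2.2 (insert w τ), smul_assoc]
      rw [Finset.sum_congr rfl h2, ← Finset.sum_smul, X.z_cyc, zero_smul]
  have h10 := Submodule.finrank_mono h9
  have h11 := Rr_dim X a δ hδ
  have h12 : S.card * (2 ^ X.n * δ) ≤ 2 ^ X.n * (2 ^ X.n * δ) := by
    refine Nat.mul_le_mul_right _ ?_
    have := Finset.card_le_univ S
    rwa [Fintype.card_finset, Fintype.card_fin] at this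
  omega

end Run7.h636.LT.S
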