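import Pool.Agent.Run7.h636.LT.P1c

/-!
# Project LT (helper636): the chain map of a map of vertices
-/

set_option autoImplicit false

noncomputable section

namespace Run7.h636.LT.S

open Module Pool.Agent.N496.LT Pool.Agent.W907.SG Run7.h636.LT.P1

variable {U V F M : Type} [Fintype U] [LinearOrder U] [Fintype V] [LinearOrder V] [Field F] [AddCommGroup M]
  [Module F M] (f : U → V)

omit [Fintype U] [Fintype V] in
theorem sg_mapOn (v : U) (T : Finset U) (h : v ∉ T) (hf : ∀ u ∈ T, f u ≠ f v) (hfT : Set.InjOn f (T : Set U)) :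
    sg v T * gg f (insert v T) = gg f T * sg (f v) (T.image f) := by
  rw [gg_insert f v T h, sg_prod, sg_prod, Finset.prod_image hfT, mul_left_comm,
    ← Finset.prod_mul_distrib]
  congr 1
  refine Finset.prod_congr rfl fun u hu => ?_
  have hne : u ≠ v := fun h1 => h (h1 ▸ hu)
  have hne' : f u ≠ f v := hf u hu
  unfold hh
  rcases lt_or_gt_of_ne hne with h1 | h1
  · rcases lt_or_gt_of_ne hne' with h2 | h2
    · rw [if_pos h1, if_pos h2, if_neg (fun h3 => lt_asymm h1 h3.1),
        if_neg (fun h3 => lt_asymm h2 h3.2)]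
      norm_num
    · rw [if_pos h1, if_neg (lt_asymm h2), if_neg (fun h3 => lt_asymm h1 h3.1), if_pos ⟨h1, h2⟩]
      norm_num
  · rcases lt_or_gt_of_ne hne' with h2 | h2
    · rw [if_neg (lt_asymm h1), if_pos h2, if_pos ⟨h1, h2⟩, if_neg (fun h3 => lt_asymm h1 h3.1)]
      norm_num
    · rw [if_neg (lt_asymm h1), if_neg (lt_asymm h2), if_neg (fun h3 => lt_asymm h2 h3.2),
        if_neg (fun h3 => lt_asymm h1 h3.1)]
      norm_num

/-- the image of a chain -/
def push : (Finset U → M) →ₗ[F] (Finset V → M) where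
  toFun c S := ∑ T : Finset U, if T.image f = S then gg f T • c T else 0
  map_add' c d := by
    funext S
    rw [Pi.add_apply, ← Finset.sum_add_distrib]
    refine Finset.sum_congr rfl fun T _ => ?_
    split_ifs
    · rw [Pi.add_apply, smul_add]
    · rw [add_zero]
  map_smul' a c := by
    funext S
    rw [Pi.smul_apply, RingHom.id_apply, Finset.smul_sum]
    refine Finset.sum_congr rfl fun T _ => ?_
    split_ifs
    · rw [Pi.smul_apply]
      exact smul_comm _ _ _
    · rw [smul_zero]

theorem push_apply (c : Finset U → M) (S : Finset V) :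
    push (F := F) f c S = ∑ T : Finset U, if T.image f = S then gg f T • c T else 0 := rfl

theorem bd_push (c : Finset U → M) (hc : ∀ T, c T ≠ 0 → Set.InjOn f (T : Set U)) :
    bd F (push (F := F) f c) = push (F := F) f (bd F c) := by
  classical
  funext S
  rw [bd_apply, push_apply]
  have h1 : ∑ T : Finset U, (if T.image f = S then gg f T • bd F c T else 0) =
      ∑ x ∈ (Finset.univ : Finset (Finset U)).sigma fun R => Rᶜ,
        (if x.1.image f = S then gg f x.1 • (sg x.2 x.1 • c (insert x.2 x.1)) else 0) := by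
    rw [Finset.sum_sigma]
    refine Finset.sum_congr rfl fun R _ => ?_
    dsimp only
    split_ifs with h
    · rw [bd_apply, Finset.smul_sum]
    · rw [Finset.sum_const_zero]
  have h2 : ∑ x ∈ (Finset.univ : Finset (Finset U)).sigma fun R => Rᶜ,
        (if x.1.image f = S then gg f x.1 • (sg x.2 x.1 • c (insert x.2 x.1)) else 0) =
      ∑ x ∈ (Finset.univ : Finset (Finset U)).sigma fun T => T,
        (if (x.1.erase x.2).image f = S then gg f (x.1.erase x.2) • (sg x.2 (x.1.erase x.2) • c x.1) else 0) := by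
    refine Finset.sum_bij' (fun x _ => ⟨insert x.2 x.1, x.2⟩) (fun x _ => ⟨x.1.erase x.2, x.2⟩) ?_ ?_ ?_ ?_ ?_
    · rintro ⟨R, u⟩ h
      rw [Finset.mem_sigma] at h ⊢
      exact ⟨Finset.mem_univ _, Finset.mem_insert_self _ _⟩
    · rintro ⟨T, u⟩ h
      rw [Finset.mem_sigma] at h ⊢
      refine ⟨Finset.mem_univ _, ?_⟩
      rw [Finset.mem_compl]
      exact Finset.notMem_erase _ _
    · rintro ⟨R, u⟩ h
      rw [Finset.mem_sigma, Finset.mem_compl] at h
      dsimp only at h ⊢
      rw [Finset.erase_insert h.2]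
    · rintro ⟨T, u⟩ h
      rw [Finset.mem_sigma] at h
      dsimp only at h ⊢
      rw [Finset.insert_erase h.2]
    · rintro ⟨R, u⟩ h
      rw [Finset.mem_sigma, Finset.mem_compl] at h
      dsimp only at h ⊢
      rw [Finset.erase_insert h.2]
  rw [h1, h2, Finset.sum_sigma]
  have h3 : ∑ v ∈ Sᶜ, sg v S • push (F := F) f c (insert v S) =
      ∑ T : Finset U, ∑ v ∈ Sᶜ, (if T.image f = insert v S then sg v S • (gg f T • c T) else 0) := by
    rw [Finset.sum_comm]
    refine Finset.sum_congr rfl fun v _ => ?_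
    rw [push_apply, Finset.smul_sum]
    refine Finset.sum_congr rfl fun T _ => ?_
    split_ifs
    · rfl
    · rw [smul_zero]
  rw [h3]
  refine Finset.sum_congr rfl fun T _ => ?_
  by_cases hT : c T = 0
  · simp [hT]
  have hf := hc T hT
  obtain ⟨h, hh⟩ : ∃ h : V → M, ∀ x, h x = if x ∉ S ∧ T.image f = insert x S then sg x S • (gg f T • c T) else 0 :=
    ⟨_, fun _ => rfl⟩
  have h4 : ∑ v ∈ Sᶜ, (if T.image f = insert v S then sg v S • (gg f T • c T) else 0) = ∑ v ∈ T.image f, h v := by
    have h5 : ∑ v ∈ Sᶜ, (if T.image f = insert v S then sg v S • (gg f T • c T) else 0) = ∑ v, h v := by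
      rw [← Finset.sum_filter_add_sum_filter_not Finset.univ (fun v => v ∉ S) h]
      have h6 : ∑ v ∈ Finset.univ.filter (fun v => ¬ v ∉ S), h v = 0 := by
        refine Finset.sum_eq_zero fun v hv => ?_
        rw [hh]
        exact if_neg fun h7 => (Finset.mem_filter.1 hv).2 h7.1
      rw [h6, add_zero]
      refine Finset.sum_congr ?_ fun v hv => ?_
      · ext v
        simp
      · rw [hh]
        rw [Finset.mem_filter] at hv
        simp only [hv.2, not_false_eq_true, true_and]
    rw [h5]
    symm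
    refine Finset.sum_subset (Finset.subset_univ _) fun v _ hv => ?_
    rw [hh]
    refine if_neg fun h7 => hv ?_
    rw [h7.2]
    exact Finset.mem_insert_self _ _
  rw [h4, Finset.sum_image hf]
  refine Finset.sum_congr rfl fun u hu => ?_
  rw [hh]
  dsimp only
  have h5 : (T.erase u).image f = (T.image f).erase (f u) := by
    ext x
    simp only [Finset.mem_image, Finset.mem_erase]
    constructor
    · rintro ⟨y, ⟨h6, h7⟩, rfl⟩
      exact ⟨fun h8 => h6 (hf (Finset.mem_coe.2 h7) (Finset.mem_coe.2 hu) h8), y, h7, rfl⟩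
    · rintro ⟨h6, y, h7, rfl⟩
      exact ⟨y, ⟨fun h8 => h6 (by rw [h8]), h7⟩, rfl⟩
  have h6 : (f u ∉ S ∧ T.image f = insert (f u) S) ↔ (T.erase u).image f = S := by
    rw [h5]
    constructor
    · rintro ⟨h7, h8⟩
      rw [h8, Finset.erase_insert h7]
    · intro h7
      rw [← h7]
      exact ⟨Finset.notMem_erase _ _, (Finset.insert_erase (Finset.mem_image_of_mem f hu)).symm⟩
  by_cases h7 : (T.erase u).image f = S
  · rw [if_pos (h6.2 h7), if_pos h7, smul_smul, smul_smul]
    congr 1
    have h8 := sg_mapOn f u (T.erase u) (Finset.notMem_erase _ _)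
      (fun y hy h9 => (Finset.mem_erase.1 hy).1 (hf (Finset.mem_coe.2 (Finset.mem_erase.1 hy).2)
        (Finset.mem_coe.2 hu) h9)) (hf.mono (by
          intro y hy
          exact Finset.mem_coe.2 (Finset.mem_erase.1 (Finset.mem_coe.1 hy)).2))
    rw [Finset.insert_erase hu, h7] at h8
    have h9 := gg_sq f T
    have h10 := gg_sq f (T.erase u)
    calc sg (f u) S * gg f T = (gg f (T.erase u) * gg f (T.erase u)) * (sg (f u) S * gg f T) := by rw [h10, one_mul]
      _ = gg f (T.erase u) * (gg f (T.erase u) * sg (f u) S) * gg f T := by ring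
      _ = gg f (T.erase u) * (sg u (T.erase u) * gg f T) * gg f T := by rw [h8]
      _ = gg f (T.erase u) * sg u (T.erase u) * (gg f T * gg f T) := by ring
      _ = gg f (T.erase u) * sg u (T.erase u) := by rw [h9, mul_one]
  · rw [if_neg (fun h8 => h7 (h6.1 h8)), if_neg h7]

theorem push_unique (c : Finset U → M) (T0 : Finset U)
    (h : ∀ T, c T ≠ 0 → T.image f = T0.image f → T = T0) :
    push (F := F) f c (T0.image f) = gg f T0 • c T0 := by
  classical
  rw [push_apply, Finset.sum_eq_single T0, if_pos rfl]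
  · intro T _ hT
    split_ifs with h1
    · by_cases h2 : c T = 0
      · rw [h2, smul_zero]
      · exact absurd (h T h2 h1) hT
    · rfl
  · exact fun h1 => absurd (Finset.mem_univ _) h1

end Run7.h636.LT.S
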