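import Pool.Agent.Run7.h636.LT.S.Shd
import Pool.Agent.Run7.h636.LT.S.Ev
import Pool.Agent.Run7.h636.LT.S.Push
import Pool.Agent.Run7.h636.LT.P1a

/-!
# Project LT (helper636): growth of the number of cycles for doubled cycles with shared lifts
-/

set_option autoImplicit false

noncomputable section

namespace Run7.h636.LT.S

open Module Pool.Agent.N496.LT Pool.Agent.W907.SG Pool.Agent.W397.SG Run7.h636.LT.P1 Pool.Agent.Y132.SI

variable {V F : Type} [Fintype V] [LinearOrder V] [Field F] {G : SimpleGraph V} {d : ℕ} (X : Shd F G d)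

/-- the vertices of the unshared complex -/
abbrev VH : Type := Lex (Fin X.n × Bool)

/-- the map to the shared complex -/
def jh (x : VH X) : V := X.j (ofLex x).1 (ofLex x).2

/-- the unshared complex -/
def GH : SimpleGraph (VH X) where
  Adj x y := (ofLex x).1 ≠ (ofLex y).1 ∧ ∃ σ, X.z σ ≠ 0 ∧ (ofLex x).1 ∈ σ ∧ (ofLex y).1 ∈ σ
  symm := ⟨fun _ _ ⟨h1, σ, h2, h3, h4⟩ => ⟨h1.symm, σ, h2, h4, h3⟩⟩
  loopless := ⟨fun _ h => h.1 rfl⟩

theorem GH_adj {x y : VH X} (h : (GH X).Adj x y) : G.Adj (jh X x) (jh X y) := by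
  obtain ⟨h1, σ, h2, h3, h4⟩ := h
  exact X.clique σ h2 _ h3 _ h4 h1 _ _

/-- the unshared doubled cycle -/
def XH : Dbl F (GH X) d where
  n := X.n
  z := X.z
  j v b := toLex (v, b)
  U := ∅
  z_ne := X.z_ne
  z_card := X.z_card
  z_cyc := X.z_cyc
  j_ne v w hvw a b h := hvw (congrArg (fun x => (ofLex x).1) h)
  j_U v hv := absurd hv (Finset.notMem_empty v)
  j_adj v _ := ⟨fun h => by
    have h1 : true = false := congrArg (fun x => (ofLex x).2) h
    exact Bool.noConfusion h1, fun h => h.1 rfl⟩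
  clique σ hσ v hv w hw hvw a b := ⟨hvw, σ, hσ, hv, hw⟩
  cliqueU v hv := absurd hv (Finset.notMem_empty v)

theorem jh_inj (T : Finset (VH X)) (hT : (GH X).IsClique (T : Set (VH X))) : Set.InjOn (jh X) (T : Set (VH X)) := by
  intro x hx y hy hxy
  by_contra hne
  have h1 := GH_adj X (hT hx hy hne)
  rw [hxy] at h1
  exact G.loopless.irrefl _ h1

theorem img_clique (T : Finset (VH X)) (hT : (GH X).IsClique (T : Set (VH X))) :
    G.IsClique ((T.image (jh X) : Finset V) : Set V) := by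
  intro x hx y hy hxy
  obtain ⟨u, hu, rfl⟩ := Finset.mem_image.1 (Finset.mem_coe.1 hx)
  obtain ⟨v, hv, rfl⟩ := Finset.mem_image.1 (Finset.mem_coe.1 hy)
  exact GH_adj X (hT hu hv fun h => hxy (by rw [h]))

theorem mem_T0 (σ0 : Finset (Fin X.n)) (x : VH X) :
    x ∈ lf (XH X) σ0 σ0 ↔ (ofLex x).1 ∈ σ0 ∧ (ofLex x).2 = true := by
  refine (mem_lf (XH X) σ0 σ0 x).trans ?_
  constructor
  · intro h0
    obtain ⟨v, hv, h6⟩ : ∃ v : Fin X.n, v ∈ σ0 ∧ toLex (v, decide (v ∈ σ0)) = x := h0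
    rw [decide_eq_true hv] at h6
    rw [← h6]
    exact ⟨hv, rfl⟩
  · rintro ⟨h4, h5⟩
    refine ⟨(ofLex x).1, h4, ?_⟩
    show toLex ((ofLex x).1, decide ((ofLex x).1 ∈ σ0)) = x
    rw [decide_eq_true h4, ← h5]
    rfl

theorem card_T0 (σ0 : Finset (Fin X.n)) : (lf (XH X) σ0 σ0).card = σ0.card := lf_card (XH X) σ0 σ0

theorem clique_T0 (σ0 : Finset (Fin X.n)) (hσ0 : X.z σ0 ≠ 0) :
    (GH X).IsClique ((lf (XH X) σ0 σ0 : Finset (VH X)) : Set (VH X)) := by
  intro x hx y hy hxy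
  obtain ⟨v, hv, rfl⟩ := (mem_lf (XH X) σ0 σ0 x).1 (Finset.mem_coe.1 hx)
  obtain ⟨w, hw, rfl⟩ := (mem_lf (XH X) σ0 σ0 y).1 (Finset.mem_coe.1 hy)
  exact (XH X).clique σ0 hσ0 v hv w hw (fun h => hxy (by rw [h])) _ _

theorem main : P1S := by
  intro V F _ _ _ G d X ε h2 hε
  classical
  obtain ⟨E0, hE01, hE02⟩ := exists_tor G
  obtain ⟨m, hm⟩ := exists_nat_gt ((2 * (2 ^ X.n * 2 ^ X.n) : ℝ) / ε)
  have hm' : (2 * (2 ^ X.n * 2 ^ X.n) : ℝ) < m * ε := (div_lt_iff₀ hε).1 hm
  have hm0 : 0 < m := by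
    rcases Nat.eq_zero_or_pos m with h | h
    · rw [h] at hm'
      have : (0 : ℝ) < 2 * (2 ^ X.n * 2 ^ X.n) := by positivity
      simp at hm'
      linarith
    · exact h
  let E1 : Finset (W G) := (Finset.univ : Finset (Fin X.n)).biUnion fun v =>
    (Finset.Ico 1 m).image fun k => ((cox G).simple (X.j v true) * (cox G).simple (X.j v false)) ^ k
  refine ⟨E0 ∪ E1, ?_, ?_⟩
  · rw [Finset.mem_union]
    rintro (h | h)
    · exact hE01 h
    · obtain ⟨v, hv, h3⟩ := Finset.mem_biUnion.1 h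
      obtain ⟨k, hk, h4⟩ := Finset.mem_image.1 h3
      exact pow_ne G _ _ (fun h5 => Bool.noConfusion (X.j_true v v false h5).2) (X.j_adj v) k
        (by have := (Finset.mem_Ico.1 hk).1; omega) h4
  intro Y _ P A hA
  have hdim : ∀ T : Finset V, G.IsClique (T : Set V) → finrank F (ET F P.a T) * 2 ^ T.card = Fintype.card Y :=
    ET_dim' h2 G P.a P.inv P.comm (fun T t ht hc => exists_sigma G P.a P.ev P.ev_one P.ev_mul P.ev_simple
      (fun T hT g hg hg1 x => P.free g (Finset.mem_union_left _ (hE02 T hT g hg hg1)) x) T t ht hc)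
  -- the unshared complex
  obtain ⟨ah, hah⟩ : ∃ ah : VH X → Y → Y, ah = fun x => P.a (jh X x) := ⟨_, rfl⟩
  have hET : ∀ T : Finset (VH X), ET F ah T = ET F P.a (T.image (jh X)) := by
    intro T
    rw [hah]
    ext f
    constructor
    · intro hf t ht y
      obtain ⟨x, hx, rfl⟩ := Finset.mem_image.1 ht
      exact hf x hx y
    · intro hf x hx y
      exact hf _ (Finset.mem_image_of_mem _ hx) y
  have hdimh : ∀ T : Finset (VH X), (GH X).IsClique (T : Set (VH X)) →
      finrank F (ET F ah T) * 2 ^ T.card = Fintype.card Y := by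
    intro T hT
    have h3 := hdim _ (img_clique X T hT)
    rwa [Finset.card_image_of_injOn (jh_inj X T hT), ← hET] at h3
  have hδ : ∀ w, w ∉ (XH X).U → finrank F (Pw (XH X) ah w true ⊓ Pw (XH X) ah w false : Submodule F (Y → F)) ≤
      Fintype.card Y / m := by
    intro w _
    rw [Nat.le_div_iff_mul_le hm0]
    let t : Equiv.Perm Y := ⟨fun y => P.a (X.j w false) (P.a (X.j w true) y),
      fun y => P.a (X.j w true) (P.a (X.j w false) y), fun y => by beta_reduce; rw [P.inv, P.inv],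
      fun y => by beta_reduce; rw [P.inv, P.inv]⟩
    have ht : ∀ y, t y = P.ev y ((cox G).simple (X.j w true) * (cox G).simple (X.j w false)) := by
      intro y
      rw [P.ev_mul, P.ev_simple, P.ev_simple]
      rfl
    have htk : ∀ (k : ℕ) y, (t ^ k) y = P.ev y (((cox G).simple (X.j w true) * (cox G).simple (X.j w false)) ^ k) := by
      intro k
      induction k with
      | zero =>
        intro y
        rw [pow_zero, pow_zero, P.ev_one]
        rfl
      | succ k ih =>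
        intro y
        rw [pow_succ', Equiv.Perm.mul_apply, ih, ht, ← P.ev_mul, pow_succ]
    refine inv_small t m (fun k h1 h3 y => ?_) _ ?_
    · rw [htk]
      refine P.free _ (Finset.mem_union_right _ (Finset.mem_biUnion.2 ⟨w, Finset.mem_univ _,
        Finset.mem_image.2 ⟨k, Finset.mem_Ico.2 ⟨h1, h3⟩, rfl⟩⟩)) y
    · rintro f ⟨hf1, hf2⟩ y
      rw [hah] at hf1 hf2
      show f (P.a (X.j w false) (P.a (X.j w true) y)) = f y
      rw [show f (P.a (X.j w false) (P.a (X.j w true) y)) = - f (P.a (X.j w true) y) from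
          hf2 _ (Finset.mem_singleton_self _) _,
        show f (P.a (X.j w true) y) = - f y from hf1 _ (Finset.mem_singleton_self _) _, neg_neg]
  obtain ⟨σ0, hσ0⟩ : ∃ σ, X.z σ ≠ 0 := by
    by_contra h
    push Not at h
    exact X.z_ne (funext h)
  have h3 := ev_dim (XH X) ah rfl σ0 hσ0 (Fintype.card Y / m) hδ hdimh Set.univ (fun _ _ => Set.mem_univ _)
  obtain ⟨T0, hT0⟩ : ∃ T0 : Finset (VH X), T0 = lf (XH X) σ0 σ0 := ⟨_, rfl⟩
  rw [← hT0] at h3
  have hmT0 : ∀ x, x ∈ T0 ↔ (ofLex x).1 ∈ σ0 ∧ (ofLex x).2 = true := by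
    intro x
    rw [hT0]
    exact mem_T0 X σ0 x
  -- pushing
  have hsupp : ∀ c ∈ KK (GH X) (pull F ah) Set.univ ∅ (d + 1), ∀ T, c T ≠ 0 →
      (GH X).IsClique (T : Set (VH X)) ∧ T.card = d + 1 := by
    intro c hc T hT
    by_contra h
    refine hT ((mem_KK.1 hc).1 T fun h' => h ⟨h'.1, h'.2.2⟩)
  have hpush : ∀ c ∈ ZZ (GH X) (pull F ah) Set.univ ∅ (d + 1),
      push (F := F) (jh X) c ∈ ZZ G (pull F P.a) A ∅ (d + 1) := by
    rintro c ⟨hc1, hc2⟩
    refine ⟨?_, ?_⟩
    · refine mem_KK.2 ⟨fun S hS => ?_, fun S t ht => ?_⟩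
      · rw [push_apply]
        refine Finset.sum_eq_zero fun T _ => ?_
        split_ifs with h
        · by_cases hcT : c T = 0
          · rw [hcT, smul_zero]
          · exfalso
            obtain ⟨h4, h5⟩ := hsupp c hc1 T hcT
            apply hS
            rw [← h]
            refine ⟨img_clique X T h4, ?_, ?_⟩
            · intro x hx
              obtain ⟨u, hu, rfl⟩ := Finset.mem_image.1 (Finset.mem_coe.1 hx)
              exact hA _ _
            · rw [Finset.card_image_of_injOn (jh_inj X T h4), h5]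
        · rfl
      · have ht' : t ∈ S := ht.resolve_right (Set.notMem_empty t)
        have h4 : push (F := F) (jh X) c S ∈ ET F P.a S := by
          rw [push_apply]
          refine Submodule.sum_mem _ fun T _ => ?_
          split_ifs with h
          · rw [← h, ← hET]
            refine zsmul_mem ?_ _
            intro x hx y
            have h5 := (mem_KK.1 hc1).2 T x (Or.inl hx)
            exact congrFun h5 y
          · exact zero_mem _
        funext y
        exact h4 t ht' y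
    · show bd F (push (F := F) (jh X) c) = 0
      rw [bd_push (jh X) c (fun T hT => jh_inj X T (hsupp c hc1 T hT).1), show bd F c = 0 from hc2, map_zero]
  have hval : ∀ c ∈ ZZ (GH X) (pull F ah) Set.univ ∅ (d + 1),
      push (F := F) (jh X) c (T0.image (jh X)) = gg (jh X) T0 • c T0 := by
    rintro c ⟨hc1, hc2⟩
    refine push_unique (jh X) c T0 fun T hT h => ?_
    obtain ⟨h4, h5⟩ := hsupp c hc1 T hT
    have h6 : T ⊆ T0 := by
      intro x hx
      have h7 : jh X x ∈ T0.image (jh X) := by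
        rw [← h]
        exact Finset.mem_image_of_mem _ hx
      obtain ⟨y, hy, h8⟩ := Finset.mem_image.1 h7
      obtain ⟨h9, h10⟩ := (hmT0 y).1 hy
      have h11 : X.j (ofLex y).1 true = X.j (ofLex x).1 (ofLex x).2 := by
        rw [← h10]
        exact h8
      obtain ⟨h12, h13⟩ := X.j_true _ _ _ h11
      exact (hmT0 x).2 ⟨h12 ▸ h9, h13⟩
    refine Finset.eq_of_subset_of_card_le h6 ?_
    have h14 := card_T0 X σ0
    rw [h5, hT0, h14]
    exact (X.z_card σ0 hσ0).le
  -- the final count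
  let ev : (Finset V → Y → F) →ₗ[F] (Y → F) :=
    { toFun := fun c => gg (jh X) T0 • c (T0.image (jh X))
      map_add' := fun c c' => by rw [Pi.add_apply, smul_add]
      map_smul' := fun r c => by
        rw [Pi.smul_apply, RingHom.id_apply]
        exact smul_comm _ _ _ }
  have h4 : (ZZ (GH X) (pull F ah) Set.univ ∅ (d + 1)).map
      (LinearMap.proj (R := F) (φ := fun _ : Finset (VH X) => Y → F) T0) ≤
      (ZZ G (pull F P.a) A ∅ (d + 1)).map ev := by
    rintro _ ⟨c, hc, rfl⟩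
    refine ⟨push (F := F) (jh X) c, hpush c hc, ?_⟩
    show gg (jh X) T0 • push (F := F) (jh X) c (T0.image (jh X)) = c T0
    rw [hval c hc, smul_smul, gg_sq, one_smul]
  have h5 := Submodule.finrank_mono h4
  have h6 : finrank F ((ZZ G (pull F P.a) A ∅ (d + 1)).map ev) ≤ finrank F (ZZ G (pull F P.a) A ∅ (d + 1)) :=
    Submodule.finrank_map_le _ _
  have h7 : finrank F (Nn (XH X) ah σ0 σ0) * 2 ^ (d + 1) = Fintype.card Y := by
    have h9 := hdimh _ (clique_T0 X σ0 hσ0)
    have h14 := card_T0 X σ0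
    rw [h14, X.z_card σ0 hσ0] at h9
    exact h9
  have h8 : ((1 / 2 : ℝ) ^ (d + 1)) * Fintype.card Y = finrank F (Nn (XH X) ah σ0 σ0) := by
    have h9 : (Fintype.card Y : ℝ) = finrank F (Nn (XH X) ah σ0 σ0) * 2 ^ (d + 1) := by
      rw [← h7]
      push_cast
      ring
    rw [h9, one_div, inv_pow]
    field_simp
  have h9 : (finrank F (Nn (XH X) ah σ0 σ0) : ℝ) ≤ finrank F (ZZ G (pull F P.a) A ∅ (d + 1)) +
      2 * (2 ^ X.n * (2 ^ X.n * ((Fintype.card Y / m : ℕ) : ℝ))) := by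
    have h10 : finrank F (Nn (XH X) ah σ0 σ0) ≤ finrank F (ZZ G (pull F P.a) A ∅ (d + 1)) +
      2 * (2 ^ X.n * (2 ^ X.n * (Fintype.card Y / m))) := by
      have h11 : (XH X).n = X.n := rfl
      rw [h11] at h3
      omega
    exact_mod_cast h10
  have h10 : ((Fintype.card Y / m : ℕ) : ℝ) * m ≤ Fintype.card Y := by
    exact_mod_cast Nat.div_mul_le_self _ _
  have h11 : 2 * (2 ^ X.n * (2 ^ X.n * ((Fintype.card Y / m : ℕ) : ℝ))) ≤ ε * Fintype.card Y := by
    have h12 : 2 * (2 ^ X.n * (2 ^ X.n * ((Fintype.card Y / m : ℕ) : ℝ))) =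
        (2 * (2 ^ X.n * 2 ^ X.n)) * ((Fintype.card Y / m : ℕ) : ℝ) := by ring
    rw [h12]
    calc (2 * (2 ^ X.n * 2 ^ X.n)) * ((Fintype.card Y / m : ℕ) : ℝ) ≤ (m * ε) * ((Fintype.card Y / m : ℕ) : ℝ) :=
          mul_le_mul_of_nonneg_right hm'.le (Nat.cast_nonneg _)
      _ = ε * (((Fintype.card Y / m : ℕ) : ℝ) * m) := by ring
      _ ≤ ε * Fintype.card Y := mul_le_mul_of_nonneg_left h10 hε.le
  rw [sub_mul, h8]
  linarith

end Run7.h636.LT.S
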