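import Pool.Agent.Run7.h636.LT.S.FinSS
import Pool.Agent.Run7.h636.LT.S.P1S
import Pool.Agent.Run7.h636.LT.PubEq
import Pool.Agent.Run7.h642.LT.P2G
import Pool.Agent.Run7.h642.LT.P4R
import Pool.Agent.Run7.h396.LT.P3A
import Pool.Agent.Run7.h396.LT.SMITH
import Pool.Agent.Run7.h639.LT.P4B
import Pool.Agent.Run7.h606.LT.Trz1
import Pool.Agent.Run7.h606.LT.Trz2
import Pool.Agent.Run7.h606.LT.Pair
import Pool.Agent.Run7.h606.LT.Bt
import Pool.Agent.Run7.h308.LT.Mom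
import Pool.Agent.Run7.h308.LT.P5i
import Pool.Agent.Run7.h956.LT.PRL
import Pool.Agent.Run7.h956.LT.STR
import Pool.Agent.Run7.h956.LT.TRL
import Pool.Agent.Run7.h85.LT.P4i
import Pool.Agent.Run7.h329.LT.INJ
import Pool.Agent.Run7.h329.LT.RFD
import Pool.Agent.Run7.h329.LT.EUL

/-!
# Project LT (helper636): the main theorems for shared lifts
-/

set_option autoImplicit false

noncomputable section

namespace Run7.h636.LTS

open Run7.h636.Pub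
open Run7.h636.LT.S (Shd EmbAll buildS mainS3 mainS2)
open Pool.Agent.TH652.Above (HSph)

/-- the growth of the torsion of the third power, and its `L²`-torsion -/
theorem main3 {N d : ℕ} (H : SimpleGraph (Fin N)) (hd : 1 ≤ d) (hS : HSph (2 * d + 1) H) (hE : EmbAll d H)
    (p : ℕ) [Fact p.Prime] (hp : p ≠ 2) (Z : Shd (ZMod p) H d) (c : Fin N → Fin (d + 1))
    (hc : ∀ v w a b, H.Adj (Z.j v a) (Z.j w b) → c (Z.j v a) ≠ c (Z.j w b)) :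
    ∃ (n : ℕ) (S : SimpleGraph (Fin n)), Pool.Agent.N496.LT.Sub H S ∧ HSph (2 * d + 1) S ∧ Run7.h636.Pub.ResFin (Gam S) ∧
      (dav S).free.DetL2Acyclic ∧ (dav S).cube.free.DetL2Acyclic ∧ (dav S).cube.free.l2torsion = 0 ∧
      CubeGrowth (dav S) p (3 * d + 1) (2 ^ n / 2 ^ (d + 1)) := by
  obtain ⟨n, S, A, κ, Z', h1, h2, h3, h4, h5, h6⟩ := buildS (Pool.Agent.N496.LT.c2 Pool.Agent.N496.LT.c1) Run7.h636.LT.C3.main
    Pool.Agent.N496.LT.e1 H hd hS hE Z c hc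
  have h8 := mainS3 Run7.h636.LT.S.main Run7.h642.LT.P2G.main Run7.h396.LT.P3A.main
    (Run7.h636.LT.ASM.p3T Run7.h606.LT.TRZ1.main Run7.h606.LT.TRZ2.main Run7.h396.LT.SMITH.main Run7.h606.LT.PAIR.main
      Run7.h606.LT.BT.main) Run7.h639.LT.P4B.main Run7.h642.LT.P4R.main
    (Run7.h636.LT.ASM.p4A Run7.h85.LT.P4I.main Run7.h642.LT.P4R.main Run7.h329.LT.RFD.main)
    (Run7.h636.LT.ASM.p5A Run7.h329.LT.INJ.main Run7.h308.LT.P5I.main Run7.h329.LT.RFD.main)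
    (Run7.h636.LT.ASM.p5B Run7.h956.LT.TRL.main Run7.h956.LT.PRL.main Run7.h956.LT.STR.main
      (Run7.h329.LT.EUL.main Run7.h956.LT.STR.main Run7.h956.LT.TRL.main Run7.h329.LT.INJ.main)
      Run7.h308.LT.MOM.main)
    h3 κ h4 h5 p hp Z' h6
  rw [Fintype.card_fin] at h8
  obtain ⟨g1, g2, g3, g4, g5⟩ := h8
  refine ⟨n, S, h1, h2, g1, g2, g3, g4, fun R c hc0 hc => ?_⟩
  have h9 := @g5 R.K (fun i => R.normal i) R.index R.anti R.inf c hc0 hc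
  filter_upwards [h9] with i hi
  rw [Run7.h636.Pub.tg_old]
  exact hi

/-- the growth of the torsion of the square -/
theorem main2 {N d : ℕ} (H : SimpleGraph (Fin N)) (hd : 1 ≤ d) (hS : HSph (2 * d + 1) H) (hE : EmbAll d H)
    (p : ℕ) [Fact p.Prime] (hp : p ≠ 2) (Z : Shd (ZMod p) H d) (c : Fin N → Fin (d + 1))
    (hc : ∀ v w a b, H.Adj (Z.j v a) (Z.j w b) → c (Z.j v a) ≠ c (Z.j w b)) :
    ∃ (n : ℕ) (S : SimpleGraph (Fin n)), Pool.Agent.N496.LT.Sub H S ∧ HSph (2 * d + 1) S ∧ Run7.h636.Pub.ResFin (Gam S) ∧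
      SqGrowth (dav S) p (2 * d) (2 ^ n / 2 ^ (d + 1)) ∧ SqGrowth (dav S) p (2 * d + 1) (2 ^ n / 2 ^ (d + 1)) := by
  obtain ⟨n, S, A, κ, Z', h1, h2, h3, h4, h5, h6⟩ := buildS (Pool.Agent.N496.LT.c2 Pool.Agent.N496.LT.c1) Run7.h636.LT.C3.main
    Pool.Agent.N496.LT.e1 H hd hS hE Z c hc
  have h8 := mainS2 Run7.h636.LT.S.main Run7.h642.LT.P2G.main Run7.h396.LT.P3A.main
    (Run7.h636.LT.ASM.p3S Run7.h606.LT.TRZ1.main Run7.h606.LT.TRZ2.main Run7.h396.LT.SMITH.main Run7.h606.LT.PAIR.main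
      Run7.h606.LT.BT.main) Run7.h639.LT.P4B.main Run7.h642.LT.P4R.main
    h3 κ h4 h5 p hp Z' h6
  rw [Fintype.card_fin] at h8
  obtain ⟨g1, g2⟩ := h8
  refine ⟨n, S, h1, h2, g1, fun R c hc0 hc => ?_, fun R c hc0 hc => ?_⟩
  · have h9 := @g2 R.K (fun i => R.normal i) R.index R.anti R.inf c hc0 hc
    filter_upwards [h9] with i hi
    rw [Run7.h636.Pub.tg_old]
    exact hi (2 * d) (Or.inl rfl)
  · have h9 := @g2 R.K (fun i => R.normal i) R.index R.anti R.inf c hc0 hc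
    filter_upwards [h9] with i hi
    rw [Run7.h636.Pub.tg_old]
    exact hi (2 * d + 1) (Or.inr rfl)

/-- the case of a triangulated sphere in the sense of `TSph` -/
theorem main3T {N d : ℕ} (H : SimpleGraph (Fin N)) (hd : 1 ≤ d) (hH : TSph (2 * d + 1) H)
    (p : ℕ) [Fact p.Prime] (hp : p ≠ 2) (Z : Shd (ZMod p) H d) (c : Fin N → Fin (d + 1))
    (hc : ∀ v w a b, H.Adj (Z.j v a) (Z.j w b) → c (Z.j v a) ≠ c (Z.j w b)) :
    ∃ (n : ℕ) (S : SimpleGraph (Fin n)), Sub H S ∧ TSph (2 * d + 1) S ∧ ResFin (Gam S) ∧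
      (dav S).free.DetL2Acyclic ∧ (dav S).cube.free.DetL2Acyclic ∧ (dav S).cube.free.l2torsion = 0 ∧
      CubeGrowth (dav S) p (3 * d + 1) (2 ^ n / 2 ^ (d + 1)) := by
  obtain ⟨hH, f, hf, hf1, hfi⟩ := hH
  rw [HS_iff] at hH
  rw [Rea_eq] at hf hf1 hfi
  obtain ⟨n, S, h1, h2, h3, h4, h5, h6, h7⟩ := main3 H hd hH
    (Run7.h636.LT.S.embAll_unit Pool.Agent.N496.LT.e2 H f hf hf1 hfi) p hp Z c hc
  obtain ⟨g, hg, hgi, hg3⟩ := h1.real Pool.Agent.N496.LT.e2 f hf hfi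
  refine ⟨n, S, Sub_of h1, ⟨(HS_iff _ S).2 h2, g, ?_⟩, h3, h4, h5, h6, h7⟩
  rw [Rea_eq]
  refine ⟨hg, fun x hx => ?_, hgi⟩
  obtain ⟨y, hy, e⟩ := hg3 x hx
  rw [e]
  exact hf1 y hy

/-- the case of a triangulated sphere in the sense of `TSph` -/
theorem main2T {N d : ℕ} (H : SimpleGraph (Fin N)) (hd : 1 ≤ d) (hH : TSph (2 * d + 1) H)
    (p : ℕ) [Fact p.Prime] (hp : p ≠ 2) (Z : Shd (ZMod p) H d) (c : Fin N → Fin (d + 1))
    (hc : ∀ v w a b, H.Adj (Z.j v a) (Z.j w b) → c (Z.j v a) ≠ c (Z.j w b)) :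
    ∃ (n : ℕ) (S : SimpleGraph (Fin n)), Sub H S ∧ TSph (2 * d + 1) S ∧ ResFin (Gam S) ∧
      SqGrowth (dav S) p (2 * d) (2 ^ n / 2 ^ (d + 1)) ∧ SqGrowth (dav S) p (2 * d + 1) (2 ^ n / 2 ^ (d + 1)) := by
  obtain ⟨hH, f, hf, hf1, hfi⟩ := hH
  rw [HS_iff] at hH
  rw [Rea_eq] at hf hf1 hfi
  obtain ⟨n, S, h1, h2, h3, h4, h5⟩ := main2 H hd hH
    (Run7.h636.LT.S.embAll_unit Pool.Agent.N496.LT.e2 H f hf hf1 hfi) p hp Z c hc
  obtain ⟨g, hg, hgi, hg3⟩ := h1.real Pool.Agent.N496.LT.e2 f hf hfi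
  refine ⟨n, S, Sub_of h1, ⟨(HS_iff _ S).2 h2, g, ?_⟩, h3, h4, h5⟩
  rw [Rea_eq]
  refine ⟨hg, fun x hx => ?_, hgi⟩
  obtain ⟨y, hy, e⟩ := hg3 x hx
  rw [e]
  exact hf1 y hy

end Run7.h636.LTS
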